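import Pool.Agent.Ratios.Final
import Pool.Agent.Ratios.JFinal
import Pool.Agent.Ratios.Far

/-!
# The one-over-one ratios conjecture for the family `χ_{8d}` fails under GRH

Under GRH there is an admissible weight `w` (even, nonnegative, Schwartz, not identically zero) for
which the asymptotic formula of the ratios conjecture with error term `O(X^{-1/2+ε})` fails on its
stated region for every `0 < ε ≤ 1/40` and for all implied constants `c₁, c₂ > 0` of the region.
-/

set_option autoImplicit false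

namespace Pool.Agent.Results.MP_d2a082_nt.RatiosFalse

open Pool.Agent.Ratios

theorem result (hGRH : GRH) :
    ∃ w : SchwartzMap ℝ ℝ, (∀ x, 0 ≤ w x) ∧ (∀ x, w (-x) = w x) ∧ w ≠ 0 ∧
      ∀ ε c₁ c₂ : ℝ, 0 < ε → ε ≤ 1 / 40 → 0 < c₁ → 0 < c₂ → ¬ RatiosBound w ε c₁ c₂ :=
  ⟨wS, wS_nonneg, wS_even, wS_ne_zero, fun ε c₁ c₂ _ hε _ hc₂ =>
    ratios_false_of hGRH J_final norm_Id_three far_L far_b ε c₁ c₂ hε hc₂⟩

end Pool.Agent.Results.MP_d2a082_nt.RatiosFalse
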